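import Pool.Agent.H23.NVK.MTargets
import Pool.Agent.H63.CN.Lam

/-! Row M_MU01 of the board `nvk_modules`: smoothed sums of the Moebius function. -/

set_option autoImplicit false

open MeasureTheory Set Filter Topology

namespace Pool.Agent.H24.NVK

open Pool.Agent.H23.NVK

variable {α : Type} {N : α → ℕ} {ρ δ : ℝ}

lemma one_le_div (h : AxA N ρ δ) {y : ℝ} {n : α →₀ ℕ} (hn : n ∈ FM N y) :
    (1 : ℝ) ≤ nF N n ∧ (nF N n : ℝ) ≤ y ∧ 1 ≤ y / nF N n := by
  have h1 : (1 : ℝ) ≤ nF N n := by exact_mod_cast h.one_le_nF n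
  have h2 := h.mem_FM.1 hn
  exact ⟨h1, h2, by rw [le_div_iff₀ (h.nF_pos n), one_mul]; exact h2⟩

lemma Lam_add (a : (α →₀ ℕ) → ℝ) (f g : ℝ → ℝ) (y : ℝ) :
    Lam N a (fun x => f x + g x) y = Lam N a f y + Lam N a g y := by
  unfold Lam
  rw [← Finset.sum_add_distrib]
  exact Finset.sum_congr rfl fun n _ => by ring

lemma Lam_smul (a : (α →₀ ℕ) → ℝ) (c : ℝ) (f : ℝ → ℝ) (y : ℝ) :
    Lam N a (fun x => c * f x) y = c * Lam N a f y := by
  unfold Lam
  rw [Finset.mul_sum]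
  exact Finset.sum_congr rfl fun n _ => by ring

lemma Lam_sum {ι : Type} (a : (α →₀ ℕ) → ℝ) (s : Finset ι) (f : ι → ℝ → ℝ) (y : ℝ) :
    Lam N a (fun x => ∑ i ∈ s, f i x) y = ∑ i ∈ s, Lam N a (f i) y := by
  unfold Lam
  rw [Finset.sum_comm]
  exact Finset.sum_congr rfl fun n _ => by rw [Finset.mul_sum]

lemma zero_mem (h : AxA N ρ δ) {y : ℝ} (hy : 1 ≤ y) : (0 : α →₀ ℕ) ∈ FM N y := by
  rw [h.mem_FM, nF_zero]
  simpa using hy

/-- Moebius inversion -/
lemma Lam_inv (hCVI : T_CVI) (h : AxA N ρ δ) (f : ℝ → ℝ) {y : ℝ} (hy : 1 ≤ y) :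
    Lam N mr (Lam N (fun _ => 1) f) y = f y := by
  classical
  rw [h.Lam_Lam]
  unfold Lam
  rw [Finset.sum_eq_single_of_mem 0 (zero_mem h hy)]
  · rw [(hCVI α).1 0, nF_zero]
    simp
  · intro n _ hn
    rw [(hCVI α).1 n, if_neg hn]
    simp

lemma sum_pow (hSUM : T_SUM) (h : AxA N ρ δ) : ∃ C : ℝ, 0 < C ∧ ∀ y : ℝ, 1 ≤ y →
    ∑ n ∈ FM N y, (nF N n : ℝ) ^ (-(1 - δ)) ≤ C * y ^ δ := by
  obtain ⟨C, hC, h1⟩ := (hSUM α N ρ δ h).2.2.1 (1 - δ) (by linarith [h.del])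
  refine ⟨C, hC, fun y hy => ?_⟩
  have := h1 y hy
  rwa [show (1 : ℝ) - (1 - δ) = δ by ring] at this

/-- the sum of a power saving -/
lemma Lam_bound_pow (hCVI : T_CVI) (hSUM : T_SUM) (h : AxA N ρ δ) :
    ∃ C : ℝ, 0 < C ∧ ∀ (f : ℝ → ℝ) (D y : ℝ), 1 ≤ y → 0 ≤ D →
      (∀ x, 1 ≤ x → |f x| ≤ D * x ^ (-δ)) → |Lam N mr f y| ≤ D * C := by
  obtain ⟨C, hC, h1⟩ := sum_pow hSUM h
  refine ⟨C, hC, fun f D y hy hD hf => ?_⟩
  have hy0 : 0 < y := by linarith
  unfold Lam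
  have h2 : ∀ n ∈ FM N y, |mr n / nF N n * f (y / nF N n)| ≤
      D * y ^ (-δ) * (nF N n : ℝ) ^ (-(1 - δ)) := by
    intro n hn
    obtain ⟨h3, h4, h5⟩ := one_le_div h hn
    have h6 : (0 : ℝ) < nF N n := h.nF_pos n
    have h7 := hf _ h5
    rw [abs_mul, abs_div, abs_of_pos h6]
    have h8 : |mr n| ≤ 1 := (hCVI α).2.2.2.2.2 n
    have h9 : (y / nF N n : ℝ) ^ (-δ) = y ^ (-δ) * (nF N n : ℝ) ^ δ := by
      rw [Real.div_rpow hy0.le h6.le, Real.rpow_neg h6.le, div_inv_eq_mul]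
    have h10 : (nF N n : ℝ) ^ (-(1 - δ)) = 1 / nF N n * (nF N n : ℝ) ^ δ := by
      rw [show -(1 - δ) = -1 + δ by ring, Real.rpow_add h6, Real.rpow_neg_one, one_div]
    calc |mr n| / nF N n * |f (y / nF N n)| ≤ 1 / nF N n * (D * (y / nF N n) ^ (-δ)) := by
          gcongr
      _ = _ := by
          rw [h9, h10]
          ring
  refine (Finset.abs_sum_le_sum_abs _ _).trans ((Finset.sum_le_sum h2).trans ?_)
  rw [← Finset.mul_sum]
  have h11 := h1 y hy
  calc D * y ^ (-δ) * ∑ n ∈ FM N y, (nF N n : ℝ) ^ (-(1 - δ))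
      ≤ D * y ^ (-δ) * (C * y ^ δ) := by
        have : 0 ≤ y ^ (-δ) := Real.rpow_nonneg hy0.le _
        gcongr
    _ = D * C := by
        have : y ^ (-δ) * y ^ δ = 1 := by
          rw [← Real.rpow_add hy0, neg_add_cancel, Real.rpow_zero]
        calc _ = D * C * (y ^ (-δ) * y ^ δ) := by ring
          _ = _ := by rw [this, mul_one]

lemma lg_zero (x : ℝ) : lg 0 x = 1 := by simp [lg]

lemma M0_bound (hCVI : T_CVI) (hSUM : T_SUM) (h : AxA N ρ δ) :
    ∃ C : ℝ, 0 < C ∧ ∀ y : ℝ, 1 ≤ y → |Lam N mr (lg 0) y| ≤ C := by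
  classical
  obtain ⟨C, hC, h1⟩ := h.cnt
  obtain ⟨C', hC', h2⟩ := Lam_bound_pow hCVI hSUM h
  refine ⟨(1 + C * C') / ρ, div_pos (by positivity) h.rho, fun y hy => ?_⟩
  have hy0 : 0 < y := by linarith
  have h3 : ∑ n ∈ FM N y, mr n * ((FM N (y / nF N n)).card : ℝ) = 1 := by
    have h4 := h.sum_pairs y (fun a _ => mr a)
    have h5 : ∀ n ∈ FM N y, mr n * ((FM N (y / nF N n)).card : ℝ) =
        ∑ b ∈ FM N (y / nF N n), mr n := by
      intro n _
      rw [Finset.sum_const, nsmul_eq_mul]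
      ring
    rw [Finset.sum_congr rfl h5, ← h4, Finset.sum_eq_single_of_mem 0 (zero_mem h hy)]
    · have := (hCVI α).1 0
      unfold cv at this
      simp only [mul_one, if_true] at this
      rw [← this]
    · intro n _ hn
      have := (hCVI α).1 n
      unfold cv at this
      simp only [mul_one, if_neg hn] at this
      rw [← this]
  -- the error function
  have h6 := h2 (fun x => (((FM N x).card : ℝ) - ρ * x) / x) C y hy hC.le (fun x hx => by
    have hx0 : 0 < x := by linarith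
    rw [abs_div, abs_of_pos hx0, div_le_iff₀ hx0]
    refine (h1 x hx).trans (le_of_eq ?_)
    rw [show (1 : ℝ) - δ = -δ + 1 by ring, Real.rpow_add hx0, Real.rpow_one]
    ring)
  have h7 : y * Lam N mr (fun x => (((FM N x).card : ℝ) - ρ * x) / x) y =
      1 - ρ * y * Lam N mr (lg 0) y := by
    rw [← h3]
    unfold Lam
    rw [Finset.mul_sum, Finset.mul_sum, ← Finset.sum_sub_distrib]
    refine Finset.sum_congr rfl fun n _ => ?_
    have h8 : (nF N n : ℝ) ≠ 0 := (h.nF_pos n).ne'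
    rw [lg_zero]
    field_simp
  have h9 : |1 - ρ * y * Lam N mr (lg 0) y| ≤ y * (C * C') := by
    rw [← h7, abs_mul, abs_of_pos hy0]
    gcongr
  have h10 : ρ * y * |Lam N mr (lg 0) y| ≤ y * (1 + C * C') := by
    have h11 : ρ * y * |Lam N mr (lg 0) y| = |ρ * y * Lam N mr (lg 0) y| := by
      rw [abs_mul, abs_of_pos (mul_pos h.rho hy0)]
    rw [h11]
    calc |ρ * y * Lam N mr (lg 0) y| = |1 - (1 - ρ * y * Lam N mr (lg 0) y)| := by ring_nf
      _ ≤ |(1 : ℝ)| + |1 - ρ * y * Lam N mr (lg 0) y| := abs_sub _ _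
      _ ≤ 1 + y * (C * C') := by rw [abs_one]; linarith
      _ ≤ y * (1 + C * C') := by linarith
  rw [le_div_iff₀ h.rho]
  have h12 : y * (|Lam N mr (lg 0) y| * ρ) ≤ y * (1 + C * C') := by linarith
  exact le_of_mul_le_mul_left h12 hy0

/-- the recursion for the smoothed sums -/
lemma M_rec (hCVI : T_CVI) (hSUM : T_SUM) (hEXP : T_EXP) (h : AxA N ρ δ) (k : ℕ) :
    ∃ (c : ℕ → ℝ) (C : ℝ) (ε : ℝ → ℝ), 0 ≤ C ∧ (∀ y, 1 ≤ y → |ε y| ≤ C) ∧
    ∀ y : ℝ, 1 ≤ y → lg k y = ρ * Lam N mr (lg (k + 1)) y / (k + 1) +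
      ∑ j ∈ Finset.range (k + 1), c j * Lam N mr (lg j) y + ε y := by
  obtain ⟨c, C, hC, hc⟩ := hEXP α N ρ δ h k
  obtain ⟨C', hC', h2⟩ := Lam_bound_pow hCVI hSUM h
  obtain ⟨d, hd⟩ : ∃ d : ℝ → ℝ, d = fun y => Lam N (fun _ => 1) (lg k) y -
    (ρ * lg (k + 1) y / (k + 1) + ∑ j ∈ Finset.range (k + 1), c j * lg j y) := ⟨_, rfl⟩
  refine ⟨c, C * C', Lam N mr d, by positivity, fun y hy => ?_, fun y hy => ?_⟩
  · refine h2 d C y hy hC.le fun x hx => ?_
    rw [hd]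
    exact hc x hx
  · have h1 : Lam N (fun _ => 1) (lg k) = fun x => ((ρ / ((k : ℝ) + 1)) * lg (k + 1) x +
        ∑ j ∈ Finset.range (k + 1), c j * lg j x) + d x := by
      funext x
      rw [hd]
      simp only
      ring
    rw [← Lam_inv hCVI h (lg k) hy, h1, Lam_add, Lam_add, Lam_smul, Lam_sum]
    rw [Finset.sum_congr rfl fun j _ => Lam_smul mr (c j) (lg j) y]
    ring

lemma M1_bound (hCVI : T_CVI) (hSUM : T_SUM) (hEXP : T_EXP) (h : AxA N ρ δ) :
    ∃ C : ℝ, 0 ≤ C ∧ ∀ y : ℝ, 1 ≤ y → |Lam N mr (lg 1) y| ≤ C := by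
  obtain ⟨c, C, ε, hC, hε, h0⟩ := M_rec hCVI hSUM hEXP h 0
  obtain ⟨C0, hC0, hM0⟩ := M0_bound hCVI hSUM h
  refine ⟨(1 + |c 0| * C0 + C) / ρ, div_nonneg (by positivity) h.rho.le, fun y hy => ?_⟩
  have h1 := h0 y hy
  have h2 : ρ * Lam N mr (lg 1) y = lg 0 y - c 0 * Lam N mr (lg 0) y - ε y := by
    rw [Finset.sum_range_one] at h1
    simp only [zero_add, Nat.cast_zero, div_one] at h1
    linarith
  have h3 : |lg 0 y| ≤ 1 := by rw [lg_zero, abs_one]
  have h4 : |c 0 * Lam N mr (lg 0) y| ≤ |c 0| * C0 := by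
    rw [abs_mul]
    gcongr
    exact hM0 y hy
  have h5 : |ρ * Lam N mr (lg 1) y| ≤ 1 + |c 0| * C0 + C := by
    rw [h2]
    calc |lg 0 y - c 0 * Lam N mr (lg 0) y - ε y|
        ≤ |lg 0 y - c 0 * Lam N mr (lg 0) y| + |ε y| := abs_sub _ _
      _ ≤ |lg 0 y| + |c 0 * Lam N mr (lg 0) y| + |ε y| := by
          gcongr
          exact abs_sub _ _
      _ ≤ _ := by
          have := hε y hy
          linarith
  rw [abs_mul, abs_of_pos h.rho] at h5
  rw [le_div_iff₀ h.rho]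
  linarith

theorem pf_MU0 (hCVI : T_CVI) (hSUM : T_SUM) (hEXP : T_EXP) : T_MU0 := by
  intro α N ρ δ h
  obtain ⟨C0, hC0, hM0⟩ := M0_bound hCVI hSUM h
  obtain ⟨C1, hC1, hM1⟩ := M1_bound hCVI hSUM hEXP h
  refine ⟨C0 + C1, by linarith, fun y hy => ⟨?_, ?_⟩⟩
  · have := hM0 y hy
    linarith
  · have := hM1 y hy
    linarith

/-! ### Integration -/

lemma int_one (k : ℕ) (c : ℝ) {m v : ℝ} (hm : 1 ≤ m) (hmv : m ≤ v) :
    IntervalIntegrable (fun t => (if m ≤ t then c * lg k (t / m) else 0) / t) volume 1 v ∧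
    ∫ t in (1 : ℝ)..v, (if m ≤ t then c * lg k (t / m) else 0) / t =
      c * lg (k + 1) (v / m) / (k + 1) :=
  Pool.Agent.H63.CN.int_one k c hm hmv

lemma int_log_pow (k : ℕ) (c : ℝ) {v : ℝ} (hv : 1 ≤ v) :
    IntervalIntegrable (fun t => c * lg k t / t) volume 1 v ∧
    ∫ t in (1 : ℝ)..v, c * lg k t / t = c * lg (k + 1) v / (k + 1) := by
  have h1 := Pool.Agent.H63.CN.int_log_pow k c one_pos one_pos hv
  simp only [div_one] at h1
  refine ⟨h1.1, ?_⟩
  have h2 : Pool.Agent.H63.CN.lg (k + 1) 1 = 0 := by unfold Pool.Agent.H63.CN.lg; simp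
  rw [h2, mul_zero, zero_div, sub_zero] at h1
  exact h1.2

open Classical in
/-- integration raises the exponent of the logarithm -/
lemma J_lam (h : AxA N ρ δ) (a : (α →₀ ℕ) → ℝ) (k : ℕ) {y : ℝ} (hy : 1 ≤ y) :
    IntervalIntegrable (fun t => Lam N a (lg k) t / t) volume 1 y ∧
    ((k : ℝ) + 1) * ∫ t in (1 : ℝ)..y, Lam N a (lg k) t / t = Lam N a (lg (k + 1)) y := by
  have hy0 : 0 < y := by linarith
  have heq : Set.EqOn (fun t => Lam N a (lg k) t / t) (fun t => ∑ n ∈ FM N y,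
      (if (nF N n : ℝ) ≤ t then a n / nF N n * lg k (t / nF N n) else 0) / t)
      (Set.uIcc 1 y) := by
    intro t ht
    rw [Set.uIcc_of_le hy] at ht
    simp only
    rw [← Finset.sum_div, ← Finset.sum_filter]
    congr 1
    unfold Lam
    refine Finset.sum_congr ?_ fun _ _ => rfl
    ext n
    rw [Finset.mem_filter, h.mem_FM, h.mem_FM]
    exact ⟨fun h1 => ⟨h1.trans ht.2, h1⟩, fun h1 => h1.2⟩
  have hone := fun n (hn : n ∈ FM N y) =>
    int_one k (a n / nF N n) (one_le_div h hn).1 (one_le_div h hn).2.1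
  have hI : IntervalIntegrable (fun t => ∑ n ∈ FM N y,
      (if (nF N n : ℝ) ≤ t then a n / nF N n * lg k (t / nF N n) else 0) / t) volume 1 y := by
    have := IntervalIntegrable.sum (μ := volume) (a := 1) (b := y) (FM N y)
      (f := fun (n : α →₀ ℕ) (t : ℝ) =>
        (if (nF N n : ℝ) ≤ t then a n / nF N n * lg k (t / nF N n) else 0) / t)
      (fun n hn => (hone n hn).1)
    refine this.congr (fun t _ => ?_)
    simp only [Finset.sum_apply]
  refine ⟨hI.congr fun t ht => (heq (Set.uIoc_subset_uIcc ht)).symm, ?_⟩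
  rw [intervalIntegral.integral_congr heq,
    intervalIntegral.integral_finsetSum fun n hn => (hone n hn).1,
    Finset.sum_congr rfl fun n hn => (hone n hn).2, ← Finset.sum_div,
    mul_div_cancel₀ _ (by positivity)]
  rfl

/-- one integration of an asymptotic formula -/
lemma J_step (h0 : AxA N ρ δ) {a : (α →₀ ℕ) → ℝ} {k : ℕ} {A C : ℝ} {e : ℕ}
    (h : ∀ y : ℝ, 1 ≤ y → |Lam N a (lg k) y - A * lg e y| ≤ C * (1 + Real.log y) ^ (e - 1))
    (he : 1 ≤ e) (hC : 0 ≤ C) :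
    ∀ y : ℝ, 1 ≤ y → |Lam N a (lg (k + 1)) y - (k + 1) * A / (e + 1) * lg (e + 1) y| ≤
      (k + 1) * C * (1 + Real.log y) ^ (e + 1 - 1) := by
  intro y hy
  have hy0 : 0 < y := by linarith
  have hL := Real.log_nonneg hy
  obtain ⟨h1, h2⟩ := J_lam h0 a k hy
  obtain ⟨h3, h4⟩ := int_log_pow e A hy
  have h6 : Lam N a (lg (k + 1)) y - (k + 1) * A / (e + 1) * lg (e + 1) y =
      (k + 1) * ∫ t in (1 : ℝ)..y, (Lam N a (lg k) t / t - A * lg e t / t) := by
    rw [intervalIntegral.integral_sub h1 h3, mul_sub, h2, h4]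
    ring
  rw [h6, abs_mul, abs_of_pos (by positivity : (0 : ℝ) < k + 1), mul_assoc]
  refine mul_le_mul_of_nonneg_left ?_ (by positivity)
  obtain ⟨hB1, hB2⟩ := int_log_pow 0 (C * (1 + Real.log y) ^ (e - 1)) hy
  calc |∫ t in (1 : ℝ)..y, (Lam N a (lg k) t / t - A * lg e t / t)|
      ≤ ∫ t in (1 : ℝ)..y, |Lam N a (lg k) t / t - A * lg e t / t| :=
        intervalIntegral.abs_integral_le_integral_abs hy
    _ ≤ ∫ t in (1 : ℝ)..y, C * (1 + Real.log y) ^ (e - 1) * lg 0 t / t := by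
        refine intervalIntegral.integral_mono_on hy (h1.sub h3).abs hB1 fun t ht => ?_
        have ht0 : 0 < t := by linarith [ht.1]
        have h7 : Lam N a (lg k) t / t - A * lg e t / t = (Lam N a (lg k) t - A * lg e t) / t := by
          ring
        rw [h7, abs_div, abs_of_pos ht0]
        have h8 := h t ht.1
        have h9 : Real.log t ≤ Real.log y := Real.log_le_log ht0 ht.2
        have h10 := Real.log_nonneg ht.1
        rw [lg_zero, mul_one]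
        gcongr
        refine h8.trans ?_
        gcongr
    _ = C * (1 + Real.log y) ^ (e - 1) * Real.log y := by
        rw [hB2]
        unfold lg
        simp
    _ ≤ C * (1 + Real.log y) ^ (e - 1) * (1 + Real.log y) := by
        gcongr
        linarith
    _ = C * (1 + Real.log y) ^ (e + 1 - 1) := by
        rw [mul_assoc, ← pow_succ]
        congr 2
        omega

lemma M_asymp (hCVI : T_CVI) (hSUM : T_SUM) (hEXP : T_EXP) (h : AxA N ρ δ) (k : ℕ) :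
    ∃ C : ℝ, 0 < C ∧ ∀ y : ℝ, 1 ≤ y →
    |Lam N mr (lg (k + 2)) y - (k + 2) / ρ * lg (k + 1) y| ≤
      C * (1 + Real.log y) ^ (k + 1 - 1) := by
  have hρ := h.rho
  induction k with
  | zero =>
    obtain ⟨c, C, ε, hC, hε, h0⟩ := M_rec hCVI hSUM hEXP h 1
    obtain ⟨C0, hC0, hM0⟩ := M0_bound hCVI hSUM h
    obtain ⟨C1, hC1, h1⟩ := M1_bound hCVI hSUM hEXP h
    refine ⟨2 / ρ * (|c 0| * C0 + |c 1| * C1 + C) + 1, by positivity, fun y hy => ?_⟩
    have h2 := h0 y hy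
    have h3 : Lam N mr (lg (0 + 2)) y - ((0 : ℕ) + 2) / ρ * lg (0 + 1) y =
        -(2 / ρ * (c 0 * Lam N mr (lg 0) y + c 1 * Lam N mr (lg 1) y + ε y)) := by
      rw [Finset.sum_range_succ, Finset.sum_range_succ, Finset.sum_range_zero] at h2
      push_cast at h2 ⊢
      norm_num at h2 ⊢
      rw [h2]
      field_simp
      ring
    rw [h3, abs_neg, abs_mul, abs_of_pos (by positivity : (0 : ℝ) < 2 / ρ)]
    simp only [zero_add, tsub_self, pow_zero, mul_one]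
    have h4 : |c 0 * Lam N mr (lg 0) y| ≤ |c 0| * C0 := by
      rw [abs_mul]
      gcongr
      exact hM0 y hy
    have h5 : |c 1 * Lam N mr (lg 1) y| ≤ |c 1| * C1 := by
      rw [abs_mul]
      gcongr
      exact h1 y hy
    have h6 : |c 0 * Lam N mr (lg 0) y + c 1 * Lam N mr (lg 1) y + ε y| ≤
        |c 0| * C0 + |c 1| * C1 + C := by
      refine (abs_add_le _ _).trans (add_le_add ((abs_add_le _ _).trans (add_le_add h4 h5)) ?_)
      exact hε y hy
    have h7 := mul_le_mul_of_nonneg_left h6 (by positivity : (0 : ℝ) ≤ 2 / ρ)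
    linarith
  | succ k ih =>
    obtain ⟨C, hC, h'⟩ := ih
    have h1 := J_step h (A := ((k : ℝ) + 2) / ρ) (e := k + 1) h' (by omega) hC.le
    refine ⟨((k + 2 : ℕ) + 1) * C, by positivity, fun y hy => ?_⟩
    have h2 := h1 y hy
    have h3 : (((k + 2 : ℕ) : ℝ) + 1) * (((k : ℝ) + 2) / ρ) / (((k + 1 : ℕ) : ℝ) + 1) =
        (((k + 1 : ℕ) : ℝ) + 2) / ρ := by
      push_cast
      field_simp
      ring
    rw [h3] at h2
    exact h2

theorem pf_MU1 (hCVI : T_CVI) (hSUM : T_SUM) (hEXP : T_EXP) : T_MU1 := by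
  intro α N ρ δ h k hk
  obtain ⟨j, rfl⟩ : ∃ j, k = j + 2 := ⟨k - 2, by omega⟩
  obtain ⟨C, hC, h0⟩ := M_asymp hCVI hSUM hEXP h j
  refine ⟨C, hC, fun y hy => ?_⟩
  have h1 := h0 y hy
  push_cast
  exact h1

end Pool.Agent.H24.NVK
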