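import Pool.Agent.H89.NV.TU2

/-! Board nvk_modules, row U_ADJ: the Hecke operator can be moved to the weight. -/

set_option autoImplicit false

open MeasureTheory Set Filter NumberField NumberField.InfinitePlace
open Pool.Agent.H65.CM4 Pool.Agent.H61.NVK Pool.Agent.H89.NV
open scoped Real

namespace Pool.Agent.H24.NVK

section aux

variable {k : Type} [Field k] [NumberField k]

private theorem mem_bs {f A : Ideal (𝓞 k)} {D b : 𝓞 k} (hb : b ∈ bs f A D) :
    b ∈ f ∧ b ^ 2 + D ∈ ni k 4 * (A * f ^ 2) := by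
  classical
  unfold bs at hb
  exact (Finset.mem_filter.1 hb).2

private theorem fm_bs {f A : Ideal (𝓞 k)} {D b : 𝓞 k} (hA : A ≠ ⊥) (hb : b ∈ bs f A D) :
    Fm f D A b := ⟨hA, (mem_bs hb).1, (mem_bs hb).2⟩

private theorem mem_rts {f I A : Ideal (𝓞 k)} {b c j : 𝓞 k} (hj : j ∈ rts f I A b c) :
    j ∈ A * f := by
  classical
  unfold rts at hj
  exact (Finset.mem_filter.1 hj).2.1

variable [IsTotallyReal k]

/-- sums over the middle coefficients for a product -/
private theorem fib_sum (hIDL : T_IDL k) (hTRV : T_TRV k) (hFIB : T_FIB k) {f A : Ideal (𝓞 k)}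
    {D : 𝓞 k} (hf : f ≠ ⊥) (P : PrI k) (hA : A ≠ ⊥) (Φ : 𝓞 k → ℝ)
    (hΦ : ∀ b, Fm f D (P.1 * A) b → ∀ j ∈ P.1 * A * f, Φ (b + 2 * j) = Φ b) :
    ∑ b ∈ bs f (P.1 * A) D, Φ b =
      ∑ b ∈ bs f A D, ∑ j ∈ rts f P.1 A b (q4 (b ^ 2 + D)), Φ (b + 2 * j) := by
  classical
  have hP : P.1 ≠ ⊥ := P.2.2
  have hPA : P.1 * A ≠ ⊥ := mul_ne_zero hP hA
  set G : 𝓞 k → ℝ := fun b => if Fm f D (P.1 * A) b then Φ b else 0 with hG
  have hper : ∀ b, ∀ x ∈ ni k 2 * (P.1 * A * f), G (b + x) = G b := by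
    intro b x hx
    unfold ni at hx
    rw [Ideal.mem_span_singleton_mul] at hx
    obtain ⟨j, hj, rfl⟩ := hx
    have h2 : (((2 : ℕ) : 𝓞 k)) = 2 := by norm_num
    rw [h2]
    by_cases h1 : Fm f D (P.1 * A) b
    · have h3 : Fm f D (P.1 * A) (b + 2 * j) := ((hTRV f (P.1 * A) D b hf h1).2.2.2.1 j hj).1
      simp only [hG]
      rw [if_pos h1, if_pos h3]
      exact hΦ b h1 j hj
    · have h3 : ¬ Fm f D (P.1 * A) (b + 2 * j) := by
        intro h4
        apply h1
        have hj' : -j ∈ P.1 * A * f := neg_mem hj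
        have h5 : Fm f D (P.1 * A) (b + 2 * j + 2 * (-j)) :=
          ((hTRV f (P.1 * A) D (b + 2 * j) hf h4).2.2.2.1 (-j) hj').1
        have h6 : b + 2 * j + 2 * (-j) = b := by ring
        rw [h6] at h5
        exact h5
      simp only [hG]
      rw [if_neg h1, if_neg h3]
  have hmain := hFIB f P.1 A D G hf hP hA hper
  have h1 : ∑ b ∈ bs f (P.1 * A) D, G b = ∑ b ∈ bs f (P.1 * A) D, Φ b := by
    refine Finset.sum_congr rfl ?_
    intro b hb
    simp only [hG]
    rw [if_pos (fm_bs hPA hb)]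
  rw [← h1, hmain]
  refine Finset.sum_congr rfl ?_
  intro b hb
  refine Finset.sum_congr rfl ?_
  intro j hj
  have h2 : Fm f D (P.1 * A) (b + 2 * j) :=
    ((hTRV f A D b hf (fm_bs hA hb)).2.2.2.2.1 P.1 j hP hj).1
  simp only [hG]
  rw [if_pos h2]

end aux

variable (k : Type) [Field k] [NumberField k] [IsTotallyReal k]

theorem pf_ADJ (hRSB : T_RSB k) (hIDL : T_IDL k) (hTRV : T_TRV k) (hFIB : T_FIB k)
    (hSMM : T_SMM k) : T_ADJ k := by
  classical
  intro f D P ω F hf hω hF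
  obtain ⟨hsum, C0, hC0, hcard⟩ := hSMM
  have hIDL' := hIDL
  obtain ⟨-, hdv, hdvm, hmul, hnm1, hnp, -⟩ := hIDL
  have hP : P.1 ≠ ⊥ := P.2.2
  have hnpP : nm P.1 = np P := rfl
  have hnp0 : 0 < np P := by have := hnp P; linarith
  have hbot : bs f ⊥ D = ∅ := by
    unfold bs
    have h0 : ni k 2 * ((⊥ : Ideal (𝓞 k)) * f) = ⊥ := by rw [Ideal.bot_mul, Ideal.mul_bot]
    rw [h0, hRSB.2.1, Finset.filter_empty]
  -- the four families
  set L1 : Ideal (𝓞 k) × Ideal (𝓞 k) → ℝ := fun p => ∑ b ∈ bs f p.2 D,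
    (if P.1 ∣ p.2 then ω p.1 (dvi p.2 P.1) b (q4 (b ^ 2 + D)) else 0) *
      F p.2 b (q4 (b ^ 2 + D)) with hL1
  set L2 : Ideal (𝓞 k) × Ideal (𝓞 k) → ℝ := fun p => ∑ b ∈ bs f p.2 D,
    (if P.1 ∣ p.1 then ∑ j ∈ rts f P.1 p.2 b (q4 (b ^ 2 + D)),
      ω (dvi p.1 P.1) (P.1 * p.2) (b + 2 * j) (j ^ 2 + b * j + q4 (b ^ 2 + D)) else 0) *
      F p.2 b (q4 (b ^ 2 + D)) with hL2
  set R1 : Ideal (𝓞 k) × Ideal (𝓞 k) → ℝ := fun p => ∑ b ∈ bs f p.2 D,
    ω p.1 p.2 b (q4 (b ^ 2 + D)) *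
      (if P.1 ∣ p.2 then F (dvi p.2 P.1) b (q4 (b ^ 2 + D)) else 0) with hR1
  set R2 : Ideal (𝓞 k) × Ideal (𝓞 k) → ℝ := fun p => ∑ b ∈ bs f p.2 D,
    ω p.1 p.2 b (q4 (b ^ 2 + D)) * ∑ j ∈ rts f P.1 p.2 b (q4 (b ^ 2 + D)),
      F (P.1 * p.2) (b + 2 * j) (j ^ 2 + b * j + q4 (b ^ 2 + D)) with hR2
  have hl : US f D (Wp f P.1 ω) F = ∑' p, (L1 p + L2 p) := by
    unfold US
    refine tsum_congr ?_
    intro p
    simp only [hL1, hL2]
    rw [← Finset.sum_add_distrib]
    refine Finset.sum_congr rfl ?_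
    intro b _
    rw [← add_mul]
    rfl
  have hr : US f D ω (Tp f P.1 F) = ∑' p, (R1 p + R2 p) := by
    unfold US
    refine tsum_congr ?_
    intro p
    simp only [hR1, hR2]
    rw [← Finset.sum_add_distrib]
    refine Finset.sum_congr rfl ?_
    intro b _
    rw [← mul_add]
    rfl
  -- the two injections
  set ι : Ideal (𝓞 k) × Ideal (𝓞 k) → Ideal (𝓞 k) × Ideal (𝓞 k) := fun p => (p.1, P.1 * p.2)
    with hι
  set κ : Ideal (𝓞 k) × Ideal (𝓞 k) → Ideal (𝓞 k) × Ideal (𝓞 k) := fun p => (P.1 * p.1, p.2)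
    with hκ
  have hιi : Function.Injective ι := by
    intro p p' h
    simp only [hι, Prod.mk.injEq] at h
    have h2 : p.2 = p'.2 := by
      rw [← hdvm P.1 p.2 hP, ← hdvm P.1 p'.2 hP, h.2]
    exact Prod.ext h.1 h2
  have hκi : Function.Injective κ := by
    intro p p' h
    simp only [hκ, Prod.mk.injEq] at h
    have h2 : p.1 = p'.1 := by
      rw [← hdvm P.1 p.1 hP, ← hdvm P.1 p'.1 hP, h.1]
    exact Prod.ext h2 h.2
  have hrange : ∀ A : Ideal (𝓞 k), P.1 ∣ A → ∃ A', P.1 * A' = A := by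
    rintro A ⟨A', rfl⟩
    exact ⟨A', rfl⟩
  have hsL1 : Function.support L1 ⊆ Set.range ι := by
    intro p hp
    by_cases h : P.1 ∣ p.2
    · obtain ⟨A', hA'⟩ := hrange p.2 h
      exact ⟨(p.1, A'), Prod.ext rfl hA'⟩
    · exfalso
      apply hp
      simp only [hL1]
      refine Finset.sum_eq_zero ?_
      intro b _
      rw [if_neg h, zero_mul]
  have hsR1 : Function.support R1 ⊆ Set.range ι := by
    intro p hp
    by_cases h : P.1 ∣ p.2
    · obtain ⟨A', hA'⟩ := hrange p.2 h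
      exact ⟨(p.1, A'), Prod.ext rfl hA'⟩
    · exfalso
      apply hp
      simp only [hR1]
      refine Finset.sum_eq_zero ?_
      intro b _
      rw [if_neg h, mul_zero]
  have hsL2 : Function.support L2 ⊆ Set.range κ := by
    intro p hp
    by_cases h : P.1 ∣ p.1
    · obtain ⟨A', hA'⟩ := hrange p.1 h
      exact ⟨(A', p.2), Prod.ext hA' rfl⟩
    · exfalso
      apply hp
      simp only [hL2]
      refine Finset.sum_eq_zero ?_
      intro b _
      rw [if_neg h, zero_mul]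
  -- first identity
  have hid1 : ∀ p, L1 (ι p) = R2 p := by
    rintro ⟨e, A⟩
    by_cases hA : A = ⊥
    · subst hA
      simp only [hL1, hR2, hι]
      rw [Ideal.mul_bot, hbot, Finset.sum_empty, Finset.sum_empty]
    have hPA : P.1 ∣ P.1 * A := ⟨A, rfl⟩
    have hdA : dvi (P.1 * A) P.1 = A := hdvm P.1 A hP
    by_cases he : e = ⊥
    · subst he
      simp only [hL1, hR2, hι]
      rw [Finset.sum_eq_zero, Finset.sum_eq_zero]
      · intro b _
        rw [hω.zero, zero_mul]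
      · intro b _
        rw [if_pos hPA, hω.zero, zero_mul]
    have h1 := fib_sum hIDL' hTRV hFIB (D := D) hf P hA
      (fun b => ω e A b (q4 (b ^ 2 + D)) * F (P.1 * A) b (q4 (b ^ 2 + D))) (by
        intro b hb j hj
        have h2 : Fm f D A b := by
          have h3 := (hTRV f (P.1 * A) D b hf hb).2.2.2.2.2 P.1 hPA
          rw [hdA] at h3
          exact h3
        have h4 : j ∈ A * f := by
          have : P.1 * A * f ≤ A * f := Ideal.mul_mono_left Ideal.mul_le_right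
          exact this hj
        show ω e A (b + 2 * j) (q4 ((b + 2 * j) ^ 2 + D)) *
          F (P.1 * A) (b + 2 * j) (q4 ((b + 2 * j) ^ 2 + D)) = _
        rw [hω.inv e A b he h2 j h4, hF.inv (P.1 * A) b hb j hj])
    simp only [hL1, hR2, hι]
    have h5 : ∑ b ∈ bs f (P.1 * A) D,
        (if P.1 ∣ P.1 * A then ω e (dvi (P.1 * A) P.1) b (q4 (b ^ 2 + D)) else 0) *
          F (P.1 * A) b (q4 (b ^ 2 + D)) =
        ∑ b ∈ bs f (P.1 * A) D, ω e A b (q4 (b ^ 2 + D)) * F (P.1 * A) b (q4 (b ^ 2 + D)) := by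
      refine Finset.sum_congr rfl ?_
      intro b _
      rw [if_pos hPA, hdA]
    rw [h5, h1]
    refine Finset.sum_congr rfl ?_
    intro b hb
    have hbF : Fm f D A b := fm_bs hA hb
    rw [Finset.mul_sum]
    refine Finset.sum_congr rfl ?_
    intro j hj
    rw [hω.inv e A b he hbF j (mem_rts hj),
      ((hTRV f A D b hf hbF).2.2.2.2.1 P.1 j hP hj).2]
  -- second identity
  have hid2 : ∀ p, L2 (κ p) = R1 (ι p) := by
    rintro ⟨e, A⟩
    have hPe : P.1 ∣ P.1 * e := ⟨e, rfl⟩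
    have hde : dvi (P.1 * e) P.1 = e := hdvm P.1 e hP
    by_cases hA : A = ⊥
    · subst hA
      simp only [hL2, hR1, hι, hκ]
      rw [Ideal.mul_bot, hbot, Finset.sum_empty, Finset.sum_empty]
    have hPA : P.1 ∣ P.1 * A := ⟨A, rfl⟩
    have hdA : dvi (P.1 * A) P.1 = A := hdvm P.1 A hP
    by_cases he : e = ⊥
    · subst he
      simp only [hL2, hR1, hι, hκ]
      rw [Finset.sum_eq_zero, Finset.sum_eq_zero]
      · intro b _
        rw [hω.zero, zero_mul]
      · intro b _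
        rw [if_pos hPe, hde]
        rw [Finset.sum_eq_zero, zero_mul]
        intro j _
        rw [hω.zero]
    have h1 := fib_sum hIDL' hTRV hFIB (D := D) hf P hA
      (fun b => ω e (P.1 * A) b (q4 (b ^ 2 + D)) * F A b (q4 (b ^ 2 + D))) (by
        intro b hb j hj
        have h2 : Fm f D A b := by
          have h3 := (hTRV f (P.1 * A) D b hf hb).2.2.2.2.2 P.1 hPA
          rw [hdA] at h3
          exact h3
        have h4 : j ∈ A * f := by
          have : P.1 * A * f ≤ A * f := Ideal.mul_mono_left Ideal.mul_le_right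
          exact this hj
        show ω e (P.1 * A) (b + 2 * j) (q4 ((b + 2 * j) ^ 2 + D)) *
          F A (b + 2 * j) (q4 ((b + 2 * j) ^ 2 + D)) = _
        rw [hω.inv e (P.1 * A) b he hb j hj, hF.inv A b h2 j h4])
    simp only [hL2, hR1, hι, hκ]
    have h5 : ∑ b ∈ bs f (P.1 * A) D, ω e (P.1 * A) b (q4 (b ^ 2 + D)) *
        (if P.1 ∣ P.1 * A then F (dvi (P.1 * A) P.1) b (q4 (b ^ 2 + D)) else 0) =
        ∑ b ∈ bs f (P.1 * A) D, ω e (P.1 * A) b (q4 (b ^ 2 + D)) * F A b (q4 (b ^ 2 + D)) := by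
      refine Finset.sum_congr rfl ?_
      intro b _
      rw [if_pos hPA, hdA]
    rw [h5, h1]
    refine Finset.sum_congr rfl ?_
    intro b hb
    have hbF : Fm f D A b := fm_bs hA hb
    rw [if_pos hPe, hde, Finset.sum_mul]
    refine Finset.sum_congr rfl ?_
    intro j hj
    rw [hF.inv A b hbF j (mem_rts hj),
      ((hTRV f A D b hf hbF).2.2.2.2.1 P.1 j hP hj).2]
  -- bounds
  obtain ⟨CF, jF, hCF, hFb⟩ := hF.bd
  have hsumbd : ∀ (A : Ideal (𝓞 k)) (t : 𝓞 k → ℝ) (K : ℝ), 0 ≤ K →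
      (∀ b ∈ bs f A D, |t b| ≤ K) → |∑ b ∈ bs f A D, t b| ≤ C0 * nm A * nm f * K := by
    intro A t K hK ht
    have h1 : |∑ b ∈ bs f A D, t b| ≤ ∑ b ∈ bs f A D, |t b| := Finset.abs_sum_le_sum_abs _ _
    have h2 : ∑ b ∈ bs f A D, |t b| ≤ (bs f A D).card • K := Finset.sum_le_card_nsmul _ _ _ ht
    rw [nsmul_eq_mul] at h2
    have h3 : ((bs f A D).card : ℝ) * K ≤ C0 * nm A * nm f * K :=
      mul_le_mul_of_nonneg_right (hcard f A D hf).1 hK
    linarith
  have hL1s : Summable L1 := by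
    refine hsum L1 (jF + 1) ?_ ?_
    · rintro e A (h | h)
      · subst h
        simp only [hL1]
        refine Finset.sum_eq_zero ?_
        intro b _
        rw [hω.zero]
        simp
      · subst h
        simp only [hL1]
        rw [hbot, Finset.sum_empty]
    · intro B
      obtain ⟨Cω, hCω, hωb⟩ := hω.bd B
      refine ⟨C0 * nm f * (Cω * np P ^ B * CF), ?_⟩
      intro e A he hA
      have hA1 : 1 ≤ nm A := hnm1 A hA
      have heA : 1 ≤ nm (e ^ 2 * A) := hnm1 _ (mul_ne_zero (pow_ne_zero 2 he) hA)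
      have h1 : |L1 (e, A)| ≤ C0 * nm A * nm f *
          (Cω * np P ^ B / nm (e ^ 2 * A) ^ B * (CF * nm A ^ jF)) := by
        refine hsumbd A _ _ (by positivity) ?_
        intro b hb
        have hbF : Fm f D A b := fm_bs hA hb
        by_cases hPA : P.1 ∣ A
        · show |(if P.1 ∣ A then ω e (dvi A P.1) b (q4 (b ^ 2 + D)) else 0) *
            F A b (q4 (b ^ 2 + D))| ≤ _
          rw [if_pos hPA, abs_mul]
          have h2 := hωb e (dvi A P.1) b he ((hTRV f A D b hf hbF).2.2.2.2.2 P.1 hPA)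
          have h3 := hFb A b hbF
          have h4 : Cω / nm (e ^ 2 * dvi A P.1) ^ B = Cω * np P ^ B / nm (e ^ 2 * A) ^ B := by
            have h5 := (hdv A P.1 hA hPA).2.2
            have h6 : nm (e ^ 2 * A) = np P * nm (e ^ 2 * dvi A P.1) := by
              rw [hmul, hmul (e ^ 2) (dvi A P.1), h5, hnpP]; ring
            rw [h6, mul_pow]
            have h7 : np P ^ B ≠ 0 := pow_ne_zero _ hnp0.ne'
            rw [mul_comm Cω, mul_div_mul_left _ _ h7]
          rw [h4] at h2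
          exact mul_le_mul h2 h3 (abs_nonneg _) (by positivity)
        · show |(if P.1 ∣ A then ω e (dvi A P.1) b (q4 (b ^ 2 + D)) else 0) *
            F A b (q4 (b ^ 2 + D))| ≤ _
          rw [if_neg hPA, zero_mul, abs_zero]
          positivity
      refine h1.trans (le_of_eq ?_)
      rw [pow_succ]
      ring
  have hR1s : Summable R1 := by
    refine hsum R1 (jF + 1) ?_ ?_
    · rintro e A (h | h)
      · subst h
        simp only [hR1]
        refine Finset.sum_eq_zero ?_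
        intro b _
        rw [hω.zero, zero_mul]
      · subst h
        simp only [hR1]
        rw [hbot, Finset.sum_empty]
    · intro B
      obtain ⟨Cω, hCω, hωb⟩ := hω.bd B
      refine ⟨C0 * nm f * (Cω * CF), ?_⟩
      intro e A he hA
      have hA1 : 1 ≤ nm A := hnm1 A hA
      have heA : 1 ≤ nm (e ^ 2 * A) := hnm1 _ (mul_ne_zero (pow_ne_zero 2 he) hA)
      have h1 : |R1 (e, A)| ≤ C0 * nm A * nm f *
          (Cω / nm (e ^ 2 * A) ^ B * (CF * nm A ^ jF)) := by
        refine hsumbd A _ _ (by positivity) ?_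
        intro b hb
        have hbF : Fm f D A b := fm_bs hA hb
        by_cases hPA : P.1 ∣ A
        · show |ω e A b (q4 (b ^ 2 + D)) *
            (if P.1 ∣ A then F (dvi A P.1) b (q4 (b ^ 2 + D)) else 0)| ≤ _
          rw [if_pos hPA, abs_mul]
          have h2 := hωb e A b he hbF
          have h3 := hFb (dvi A P.1) b ((hTRV f A D b hf hbF).2.2.2.2.2 P.1 hPA)
          obtain ⟨-, h4, h5⟩ := hdv A P.1 hA hPA
          have h6 : 1 ≤ nm (dvi A P.1) := hnm1 _ h4
          have h7 : nm (dvi A P.1) ≤ nm A := by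
            rw [h5, hnpP]
            have := hnp P
            nlinarith
          have h8 : CF * nm (dvi A P.1) ^ jF ≤ CF * nm A ^ jF :=
            mul_le_mul_of_nonneg_left (pow_le_pow_left₀ (by linarith) h7 _) hCF
          exact mul_le_mul h2 (h3.trans h8) (abs_nonneg _) (by positivity)
        · show |ω e A b (q4 (b ^ 2 + D)) *
            (if P.1 ∣ A then F (dvi A P.1) b (q4 (b ^ 2 + D)) else 0)| ≤ _
          rw [if_neg hPA, mul_zero, abs_zero]
          positivity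
      refine h1.trans (le_of_eq ?_)
      rw [pow_succ]
      ring
  have hR2s : Summable R2 := by
    have h1 : Summable (L1 ∘ ι) := hL1s.comp_injective hιi
    have h2 : (L1 ∘ ι) = R2 := funext hid1
    rw [h2] at h1
    exact h1
  have hL2s : Summable L2 := by
    have h1 : Summable (R1 ∘ ι) := hR1s.comp_injective hιi
    have h2 : (R1 ∘ ι) = (L2 ∘ κ) := funext (fun p => (hid2 p).symm)
    rw [h2] at h1
    refine (hκi.summable_iff ?_).1 h1
    intro p hp
    by_contra h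
    exact hp (hsL2 h)
  have e1 : ∑' p, L1 p = ∑' p, R2 p := by
    rw [← hιi.tsum_eq hsL1]
    exact tsum_congr hid1
  have e2 : ∑' p, L2 p = ∑' p, R1 p := by
    rw [← hκi.tsum_eq hsL2, ← hιi.tsum_eq hsR1]
    exact tsum_congr hid2
  rw [hl, hr, hL1s.tsum_add hL2s, hR1s.tsum_add hR2s, e1, e2, add_comm]

end Pool.Agent.H24.NVK
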