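import Pool.Agent.H91.NV.LTargets

/-! Board nvk_modules, row L_MIA: means, elementary facts. -/

set_option autoImplicit false

open MeasureTheory Set Filter NumberField NumberField.InfinitePlace
open Pool.Agent.H65.CM4 Pool.Agent.H61.NVK Pool.Agent.H89.NV Pool.Agent.H91.NV
open scoped Real

namespace Pool.Agent.H24.NVK

section aux

variable {k : Type} [Field k] [NumberField k]

private theorem nm_pos' {I : Ideal (𝓞 k)} (hI : I ≠ ⊥) : 0 < nm I := by
  unfold nm
  have : Ideal.absNorm I ≠ 0 := by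
    rw [Ne, Ideal.absNorm_eq_zero_iff]
    exact hI
  exact_mod_cast Nat.pos_of_ne_zero this

private theorem nm_mul' (I J : Ideal (𝓞 k)) : nm (I * J) = nm I * nm J := by
  unfold nm
  rw [map_mul]
  push_cast
  rfl

/-- change of representatives -/
private theorem sum_shift
    (hR : ∀ I : Ideal (𝓞 k), I ≠ ⊥ → ∀ x, ∃! r, r ∈ Rs I ∧ x - r ∈ I)
    {J : Ideal (𝓞 k)} (hJ : J ≠ ⊥) (p p' : 𝓞 k → Prop) [DecidablePred p] [DecidablePred p']
    (t : 𝓞 k) (F G : 𝓞 k → ℝ)
    (h1 : ∀ x, p x → ∀ y, x + t - y ∈ J → p' y)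
    (h2 : ∀ y, p' y → ∀ x, x + t - y ∈ J → p x)
    (h3 : ∀ x y, p x → x + t - y ∈ J → F x = G y) :
    ∑ x ∈ (Rs J).filter p, F x = ∑ y ∈ (Rs J).filter p', G y := by
  have hρ : ∀ x, ∃ r, r ∈ Rs J ∧ x - r ∈ J ∧ ∀ r', r' ∈ Rs J → x - r' ∈ J → r' = r := by
    intro x
    obtain ⟨r, hr, hu⟩ := hR J hJ x
    exact ⟨r, hr.1, hr.2, fun r' h h' => hu r' ⟨h, h'⟩⟩
  choose ρ hρR hρI hρu using hρ
  refine Finset.sum_bij' (fun x _ => ρ (x + t)) (fun y _ => ρ (y - t)) ?_ ?_ ?_ ?_ ?_
  · intro x hx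
    obtain ⟨hx1, hx2⟩ := Finset.mem_filter.1 hx
    exact Finset.mem_filter.2 ⟨hρR _, h1 x hx2 _ (hρI _)⟩
  · intro y hy
    obtain ⟨hy1, hy2⟩ := Finset.mem_filter.1 hy
    refine Finset.mem_filter.2 ⟨hρR _, h2 y hy2 _ ?_⟩
    have h4 : ρ (y - t) + t - y = -(y - t - ρ (y - t)) := by ring
    rw [h4]
    exact neg_mem (hρI _)
  · intro x hx
    obtain ⟨hx1, hx2⟩ := Finset.mem_filter.1 hx
    refine (hρu _ x hx1 ?_).symm
    have h4 : ρ (x + t) - t - x = -(x + t - ρ (x + t)) := by ring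
    rw [h4]
    exact neg_mem (hρI _)
  · intro y hy
    obtain ⟨hy1, hy2⟩ := Finset.mem_filter.1 hy
    refine (hρu _ y hy1 ?_).symm
    have h4 : ρ (y - t) + t - y = -(y - t - ρ (y - t)) := by ring
    rw [h4]
    exact neg_mem (hρI _)
  · intro x hx
    obtain ⟨hx1, hx2⟩ := Finset.mem_filter.1 hx
    exact h3 x _ hx2 (hρI _)

open Classical in
/-- the number of representatives in a coset of a larger ideal -/
private theorem card_coset
    (hR : ∀ I : Ideal (𝓞 k), I ≠ ⊥ → (∀ x, ∃! r, r ∈ Rs I ∧ x - r ∈ I) ∧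
      (Rs I).card = Ideal.absNorm I)
    {J K : Ideal (𝓞 k)} (hJ : J ≠ ⊥) (hK : K ≠ ⊥) (t : 𝓞 k) :
    (((Rs (J * K)).filter (fun x => x - t ∈ K)).card : ℝ) = nm J := by
  have hJK : J * K ≠ ⊥ := mul_ne_zero hJ hK
  have hle : J * K ≤ K := Ideal.mul_le_right
  have hR' : ∀ I : Ideal (𝓞 k), I ≠ ⊥ → ∀ x, ∃! r, r ∈ Rs I ∧ x - r ∈ I :=
    fun I hI => (hR I hI).1
  have hconst : ∀ u : 𝓞 k, (((Rs (J * K)).filter (fun x => x - u ∈ K)).card : ℝ) =
      (((Rs (J * K)).filter (fun x => x - t ∈ K)).card : ℝ) := by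
    intro u
    have h := sum_shift hR' hJK (fun x => x - u ∈ K) (fun x => x - t ∈ K) (t - u)
      (fun _ => 1) (fun _ => 1) (by
        intro x hx y hy
        have h4 : y - t = (x - u) - (x + (t - u) - y) := by ring
        rw [h4]
        exact sub_mem hx (hle hy)) (by
        intro y hy x hx
        have h4 : x - u = (y - t) + (x + (t - u) - y) := by ring
        rw [h4]
        exact add_mem hy (hle hx)) (fun _ _ _ _ => rfl)
    simpa using h
  -- count all the representatives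
  have hρ : ∀ x, ∃ r, r ∈ Rs K ∧ x - r ∈ K ∧ ∀ r', r' ∈ Rs K → x - r' ∈ K → r' = r := by
    intro x
    obtain ⟨r, hr, hu⟩ := hR' K hK x
    exact ⟨r, hr.1, hr.2, fun r' h h' => hu r' ⟨h, h'⟩⟩
  choose ρ hρR hρI hρu using hρ
  have h5 : ((Rs (J * K)).card : ℝ) = ∑ r ∈ Rs K,
      (((Rs (J * K)).filter (fun x => x - t ∈ K)).card : ℝ) := by
    have h6 : (Rs (J * K)).card = ∑ r ∈ Rs K, ((Rs (J * K)).filter (fun x => ρ x = r)).card :=
      Finset.card_eq_sum_card_fiberwise (fun x _ => hρR x)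
    rw [h6]
    push_cast
    refine Finset.sum_congr rfl ?_
    intro r hr
    rw [← hconst r]
    congr 2
    ext x
    simp only [Finset.mem_filter]
    constructor
    · rintro ⟨hx, h7⟩
      refine ⟨hx, ?_⟩
      rw [← h7]
      exact hρI x
    · rintro ⟨hx, h7⟩
      exact ⟨hx, (hρu x r hr h7).symm⟩
  rw [Finset.sum_const, nsmul_eq_mul, (hR _ hJK).2, (hR _ hK).2] at h5
  have h8 : (Ideal.absNorm (J * K) : ℝ) = nm J * nm K := nm_mul' J K
  have h9 : (Ideal.absNorm K : ℝ) = nm K := rfl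
  rw [h8, h9, mul_comm (nm K)] at h5
  exact (mul_right_cancel₀ (nm_pos' hK).ne' h5).symm

end aux

variable (k : Type) [Field k] [NumberField k] [IsTotallyReal k]

theorem pf_MIA (hRSB : T_RSB k) : T_MIA k := by
  classical
  intro M I hM hI
  have hR := hRSB.1
  have hR' : ∀ I : Ideal (𝓞 k), I ≠ ⊥ → ∀ x, ∃! r, r ∈ Rs I ∧ x - r ∈ I :=
    fun I hI => (hR I hI).1
  have hIM : I * M ≠ ⊥ := mul_ne_zero hI hM
  have hle : I * M ≤ M := Ideal.mul_le_right
  refine ⟨?_, ?_, ?_, ?_, ?_, ?_, ?_⟩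
  · unfold mI
    rw [Finset.sum_const, nsmul_eq_mul, mul_one]
    have h1 := card_coset hR hI hM 0
    simp only [sub_zero] at h1
    rw [h1, one_div, inv_mul_cancel₀ (nm_pos' hI).ne']
  · intro g J hJ hg
    have hρ : ∀ x, ∃ r, r ∈ Rs (I * M) ∧ x - r ∈ I * M ∧
        ∀ r', r' ∈ Rs (I * M) → x - r' ∈ I * M → r' = r := by
      intro x
      obtain ⟨r, hr, hu⟩ := hR' (I * M) hIM x
      exact ⟨r, hr.1, hr.2, fun r' h h' => hu r' ⟨h, h'⟩⟩
    choose ρ hρR hρI hρu using hρ
    have hmaps : ∀ x ∈ (Rs (J * I * M)).filter (fun x => x ∈ M),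
        ρ x ∈ (Rs (I * M)).filter (fun x => x ∈ M) := by
      intro x hx
      refine Finset.mem_filter.2 ⟨hρR x, ?_⟩
      have h4 : ρ x = x - (x - ρ x) := by ring
      rw [h4]
      exact sub_mem (Finset.mem_filter.1 hx).2 (hle (hρI x))
    unfold mI
    rw [← Finset.sum_fiberwise_of_maps_to hmaps]
    have h5 : ∀ r ∈ (Rs (I * M)).filter (fun x => x ∈ M),
        ∑ x ∈ ((Rs (J * I * M)).filter (fun x => x ∈ M)).filter (fun x => ρ x = r), g x =
          nm J * g r := by
      intro r hr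
      obtain ⟨hr1, hr2⟩ := Finset.mem_filter.1 hr
      have h6 : ∑ x ∈ ((Rs (J * I * M)).filter (fun x => x ∈ M)).filter (fun x => ρ x = r), g x =
          ∑ x ∈ ((Rs (J * I * M)).filter (fun x => x ∈ M)).filter (fun x => ρ x = r), g r := by
        refine Finset.sum_congr rfl ?_
        intro x hx
        have h7 := (Finset.mem_filter.1 hx).2
        have h8 : x = r + (x - r) := by ring
        rw [h8]
        exact hg r hr2 (x - r) (by rw [← h7]; exact hρI x)
      rw [h6, Finset.sum_const, nsmul_eq_mul]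
      congr 1
      rw [← card_coset hR hJ hIM r, mul_assoc J I M]
      congr 2
      ext x
      simp only [Finset.mem_filter]
      constructor
      · rintro ⟨⟨hx1, hx2⟩, hx3⟩
        refine ⟨hx1, ?_⟩
        rw [← hx3]
        exact hρI x
      · rintro ⟨hx1, hx2⟩
        refine ⟨⟨hx1, ?_⟩, (hρu x r hr1 hx2).symm⟩
        have h8 : x = r + (x - r) := by ring
        rw [h8]
        exact add_mem hr2 (hle hx2)
    rw [Finset.sum_congr rfl h5, ← Finset.mul_sum, nm_mul']
    have h9 := (nm_pos' hJ).ne'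
    have h10 := (nm_pos' hI).ne'
    field_simp
  · intro g t hg ht
    unfold mI
    congr 1
    refine sum_shift hR' hIM (fun x => x ∈ M) (fun x => x ∈ M) t _ _ ?_ ?_ ?_
    · intro x hx y hy
      have h4 : y = (x + t) - (x + t - y) := by ring
      rw [h4]
      exact sub_mem (add_mem hx ht) (hle hy)
    · intro y hy x hx
      have h4 : x = y + (x + t - y) - t := by ring
      rw [h4]
      exact sub_mem (add_mem hy (hle hx)) ht
    · intro x y hx hy
      have hxt : x + t ∈ M := add_mem hx ht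
      have h4 : y = (x + t) + (-(x + t - y)) := by ring
      show g (x + t) = g y
      rw [h4]
      exact (hg (x + t) hxt _ (neg_mem hy)).symm
  · intro g h hgh
    unfold mI
    congr 1
    refine Finset.sum_congr rfl ?_
    intro x hx
    exact hgh x (Finset.mem_filter.1 hx).2
  · intro g h
    unfold mI
    rw [Finset.sum_add_distrib, mul_add]
  · intro r g
    unfold mI
    rw [← Finset.mul_sum]
    ring
  · intro g h hgh
    unfold mI
    refine mul_le_mul_of_nonneg_left ?_ (by have := nm_pos' hI; positivity)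
    refine Finset.sum_le_sum ?_
    intro x hx
    exact hgh x (Finset.mem_filter.1 hx).2

end Pool.Agent.H24.NVK
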