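import Pool.Agent.H89.NV.TU2

/-! Board nvk_modules, row U_WC2: the local weights under the Hecke operator at the same prime. -/

set_option autoImplicit false

open MeasureTheory Set Filter NumberField NumberField.InfinitePlace
open Pool.Agent.H65.CM4 Pool.Agent.H61.NVK Pool.Agent.H89.NV
open scoped Real

namespace Pool.Agent.H24.NVK

section aux

variable {k : Type} [Field k] [NumberField k]

omit [NumberField k] in
private theorem poly_congr {f I : Ideal (𝓞 k)} {b c u v : 𝓞 k} (hb : b ∈ f) (hu : u ∈ f)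
    (hv : v ∈ f) (huv : u - v ∈ I * f) (h : v ^ 2 + b * v + c ∈ I * f ^ 2) :
    u ^ 2 + b * u + c ∈ I * f ^ 2 := by
  have h1 : (u - v) * (u + v + b) ∈ (I * f) * f :=
    Ideal.mul_mem_mul huv (add_mem (add_mem hu hv) hb)
  have h2 : (I * f) * f = I * f ^ 2 := by ring
  rw [h2] at h1
  have h3 : u ^ 2 + b * u + c = (v ^ 2 + b * v + c) + (u - v) * (u + v + b) := by ring
  rw [h3]
  exact add_mem h h1

omit [NumberField k] in
private theorem mul_le_f {A f : Ideal (𝓞 k)} {x : 𝓞 k} (h : x ∈ A * f) : x ∈ f :=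
  (Ideal.mul_le_right : A * f ≤ f) h

open Classical in
private theorem rts_fib
    (hR : ∀ I : Ideal (𝓞 k), I ≠ ⊥ → ∀ x, ∃! r, r ∈ Rs I ∧ x - r ∈ I)
    {f P A : Ideal (𝓞 k)} {b c : 𝓞 k} (hf : f ≠ ⊥) (hP : P ≠ ⊥) (hA : A ≠ ⊥) (hb : b ∈ f) :
    ∑ j ∈ rts f P A b c, nr f P (P * A) (b + 2 * j) (j ^ 2 + b * j + c) =
      nr f (P ^ 2) A b c := by
  have hI1 : P * (A * f) ≠ ⊥ := mul_ne_zero hP (mul_ne_zero hA hf)
  have hI2 : P ^ 2 * (A * f) ≠ ⊥ := mul_ne_zero (pow_ne_zero 2 hP) (mul_ne_zero hA hf)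
  have h21 : P ^ 2 * (A * f) ≤ P * (A * f) := by
    have : P ^ 2 * (A * f) = P * (P * (A * f)) := by ring
    rw [this]
    exact Ideal.mul_le_right
  have h1A : P * (A * f) ≤ A * f := Ideal.mul_le_right
  -- the representative
  set φ : 𝓞 k → 𝓞 k := fun J => (hR _ hI1 J).choose with hφ
  have hφR : ∀ J, φ J ∈ Rs (P * (A * f)) := fun J => (hR _ hI1 J).choose_spec.1.1
  have hφI : ∀ J, J - φ J ∈ P * (A * f) := fun J => (hR _ hI1 J).choose_spec.1.2
  have hφu : ∀ J r, r ∈ Rs (P * (A * f)) → J - r ∈ P * (A * f) → r = φ J := by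
    intro J r h1 h2
    exact (hR _ hI1 J).choose_spec.2 r ⟨h1, h2⟩
  set ψ : 𝓞 k → 𝓞 k := fun J => (hR _ hI2 J).choose with hψ
  have hψR : ∀ J, ψ J ∈ Rs (P ^ 2 * (A * f)) := fun J => (hR _ hI2 J).choose_spec.1.1
  have hψI : ∀ J, J - ψ J ∈ P ^ 2 * (A * f) := fun J => (hR _ hI2 J).choose_spec.1.2
  have hψu : ∀ J r, r ∈ Rs (P ^ 2 * (A * f)) → J - r ∈ P ^ 2 * (A * f) → r = ψ J := by
    intro J r h1 h2
    exact (hR _ hI2 J).choose_spec.2 r ⟨h1, h2⟩
  have hm1 : ∀ (b c j : 𝓞 k), j ∈ rts f P A b c ↔ j ∈ Rs (P * (A * f)) ∧ j ∈ A * f ∧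
      j ^ 2 + b * j + c ∈ (P * A) * f ^ 2 := by
    intro b c j
    unfold rts
    rw [Finset.mem_filter, mul_assoc P A (f ^ 2)]
  have hm2 : ∀ (b c J : 𝓞 k), J ∈ rts f (P ^ 2) A b c ↔ J ∈ Rs (P ^ 2 * (A * f)) ∧ J ∈ A * f ∧
      J ^ 2 + b * J + c ∈ (P ^ 2 * A) * f ^ 2 := by
    intro b c J
    unfold rts
    rw [Finset.mem_filter, mul_assoc (P ^ 2) A (f ^ 2)]
  have hm3 : ∀ (b c i : 𝓞 k), i ∈ rts f P (P * A) b c ↔ i ∈ Rs (P ^ 2 * (A * f)) ∧
      i ∈ P * (A * f) ∧ i ^ 2 + b * i + c ∈ (P ^ 2 * A) * f ^ 2 := by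
    intro b c i
    unfold rts
    rw [Finset.mem_filter]
    have e1 : P * (P * A * f) = P ^ 2 * (A * f) := by ring
    have e2 : P * A * f = P * (A * f) := by ring
    have e3 : P * (P * A * f ^ 2) = P ^ 2 * A * f ^ 2 := by ring
    rw [e1, e2, e3]
  have hmap : ∀ J ∈ rts f (P ^ 2) A b c, φ J ∈ rts f P A b c := by
    intro J hJ
    obtain ⟨-, h2, h3⟩ := (hm2 b c J).1 hJ
    have h4 : φ J ∈ A * f := by
      have h5 : φ J = J - (J - φ J) := by ring
      rw [h5]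
      exact sub_mem h2 (h1A (hφI J))
    refine (hm1 b c _).2 ⟨hφR J, h4, ?_⟩
    have h6 : φ J - J ∈ (P * A) * f := by
      have h7 : φ J - J = -(J - φ J) := by ring
      rw [h7, mul_assoc]
      exact neg_mem (hφI J)
    refine poly_congr hb (mul_le_f h4) (mul_le_f h2) h6 ?_
    have h8 : (P ^ 2 * A) * f ^ 2 ≤ (P * A) * f ^ 2 := by
      have : (P ^ 2 * A) * f ^ 2 = P * ((P * A) * f ^ 2) := by ring
      rw [this]
      exact Ideal.mul_le_right
    exact h8 h3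
  unfold Pool.Agent.H89.NV.nr
  rw [Finset.card_eq_sum_card_fiberwise hmap]
  refine Finset.sum_congr rfl ?_
  intro j hj
  obtain ⟨hj1, hj2, hj3⟩ := (hm1 b c j).1 hj
  have hpoly : ∀ i : 𝓞 k, i ^ 2 + (b + 2 * j) * i + (j ^ 2 + b * j + c) =
      (i + j) ^ 2 + b * (i + j) + c := by intro i; ring
  refine Finset.card_bij (fun i _ => ψ (i + j)) ?_ ?_ ?_
  · intro i hi
    obtain ⟨h1, h2, h3⟩ := (hm3 _ _ i).1 hi
    rw [hpoly] at h3
    have h4 : i + j ∈ A * f := add_mem (h1A h2) hj2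
    have h5 : i + j - ψ (i + j) ∈ P ^ 2 * (A * f) := hψI _
    have h6 : ψ (i + j) ∈ A * f := by
      have h7 : ψ (i + j) = (i + j) - (i + j - ψ (i + j)) := by ring
      rw [h7]
      exact sub_mem h4 (h1A (h21 h5))
    rw [Finset.mem_filter, hm2]
    refine ⟨⟨hψR _, h6, ?_⟩, ?_⟩
    · refine poly_congr hb (mul_le_f h6) (mul_le_f h4) ?_ h3
      have h7 : ψ (i + j) - (i + j) = -(i + j - ψ (i + j)) := by ring
      rw [h7, mul_assoc]
      exact neg_mem h5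
    · refine (hφu _ j hj1 ?_).symm
      have h7 : ψ (i + j) - j = i - (i + j - ψ (i + j)) := by ring
      rw [h7]
      exact sub_mem h2 (h21 h5)
  · intro i hi i' hi' h
    have h1 := ((hm3 _ _ i).1 hi).1
    have h1' := ((hm3 _ _ i').1 hi').1
    have h2 : i - i' ∈ P ^ 2 * (A * f) := by
      have h3 : i - i' = (i + j - ψ (i + j)) - (i' + j - ψ (i' + j)) := by
        have h4 : ψ (i + j) = ψ (i' + j) := h
        rw [h4]; ring
      rw [h3]
      exact sub_mem (hψI _) (hψI _)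
    have h5 : i' = ψ i := hψu i i' h1' h2
    have h6 : i = ψ i := hψu i i h1 (by rw [sub_self]; exact zero_mem _)
    rw [h5]; exact h6
  · intro J hJ
    rw [Finset.mem_filter, hm2] at hJ
    obtain ⟨⟨h1, h2, h3⟩, h4⟩ := hJ
    have h5 : J - j ∈ P * (A * f) := by rw [← h4]; exact hφI J
    have h6 : J - j - ψ (J - j) ∈ P ^ 2 * (A * f) := hψI _
    have h7 : ψ (J - j) ∈ P * (A * f) := by
      have h8 : ψ (J - j) = (J - j) - (J - j - ψ (J - j)) := by ring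
      rw [h8]
      exact sub_mem h5 (h21 h6)
    refine ⟨ψ (J - j), ?_, ?_⟩
    · refine (hm3 _ _ _).2 ⟨hψR _, h7, ?_⟩
      rw [hpoly]
      have h8 : ψ (J - j) + j ∈ A * f := add_mem (h1A h7) hj2
      refine poly_congr hb (mul_le_f h8) (mul_le_f h2) ?_ h3
      have h9 : ψ (J - j) + j - J = -(J - j - ψ (J - j)) := by ring
      rw [h9, mul_assoc]
      exact neg_mem h6
    · refine (hψu _ J h1 ?_).symm
      have h9 : ψ (J - j) + j - J = -(J - j - ψ (J - j)) := by ring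
      rw [h9]
      exact neg_mem h6

end aux

variable (k : Type) [Field k] [NumberField k] [IsTotallyReal k]

theorem pf_WC2 (hRSB : T_RSB k) (hIDL : T_IDL k) (hTRV : T_TRV k) : T_WC2 k := by
  classical
  intro f D P e A b hf he hF
  obtain ⟨-, hdv, hdvm, -, -, -, -⟩ := hIDL
  have hP : P.1 ≠ ⊥ := P.2.2
  have hR : ∀ I : Ideal (𝓞 k), I ≠ ⊥ → ∀ x, ∃! r, r ∈ Rs I ∧ x - r ∈ I :=
    fun I hI => (hRSB.1 I hI).1
  set c : 𝓞 k := q4 (b ^ 2 + D) with hc
  have hfib := rts_fib (c := c) hR hf hP hF.ne hF.mem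
  -- the squares
  have hsq : ∀ X : Ideal (𝓞 k), X ≠ ⊥ → (P.1 ^ 2 ∣ X ↔ P.1 ∣ X ∧ P.1 ∣ dvi X P.1) := by
    intro X hX
    constructor
    · rintro ⟨Y, rfl⟩
      have h1 : P.1 ^ 2 * Y = P.1 * (P.1 * Y) := by ring
      refine ⟨⟨P.1 * Y, h1⟩, ?_⟩
      rw [h1, hdvm P.1 _ hP]
      exact ⟨Y, rfl⟩
    · rintro ⟨h1, h2⟩
      obtain ⟨Y, hY⟩ := h2
      refine ⟨Y, ?_⟩
      have h3 := (hdv X P.1 hX h1).1
      rw [← h3, hY]; ring
  have hPPA : P.1 ∣ P.1 * A := ⟨A, rfl⟩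
  unfold N1 N2
  have h1 : (if P.1 ∣ A then
      ((if P.1 ∣ dvi A P.1 then 1 else 0) + (if P.1 ∣ e then nr f P.1 (dvi A P.1) b c else 0))
      else 0) = (if P.1 ^ 2 ∣ A then 1 else 0) +
        (if P.1 ∣ A ∧ P.1 ∣ e then nr f P.1 (dvi A P.1) b c else 0) := by
    have h2 := hsq A hF.ne
    by_cases h3 : P.1 ∣ A
    · rw [if_pos h3]
      congr 1
      · by_cases h4 : P.1 ∣ dvi A P.1
        · rw [if_pos h4, if_pos (h2.2 ⟨h3, h4⟩)]
        · rw [if_neg h4, if_neg (fun h => h4 (h2.1 h).2)]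
      · by_cases h4 : P.1 ∣ e
        · rw [if_pos h4, if_pos ⟨h3, h4⟩]
        · rw [if_neg h4, if_neg (fun h => h4 h.2)]
    · rw [if_neg h3, if_neg (fun h => h3 (h2.1 h).1), if_neg (fun h => h3 h.1)]
  have h2 : (if P.1 ∣ e then ∑ j ∈ rts f P.1 A b c,
      ((if P.1 ∣ P.1 * A then 1 else 0) +
        (if P.1 ∣ dvi e P.1 then nr f P.1 (P.1 * A) (b + 2 * j) (j ^ 2 + b * j + c) else 0))
      else 0) = (if P.1 ∣ e then nr f P.1 A b c else 0) +
        (if P.1 ^ 2 ∣ e then nr f (P.1 ^ 2) A b c else 0) := by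
    have h3 := hsq e he
    by_cases h4 : P.1 ∣ e
    · rw [if_pos h4, if_pos h4, Finset.sum_add_distrib]
      congr 1
      · rw [if_pos hPPA, Finset.sum_const, smul_eq_mul, mul_one]
        rfl
      · by_cases h5 : P.1 ∣ dvi e P.1
        · rw [if_pos (h3.2 ⟨h4, h5⟩), ← hfib]
          refine Finset.sum_congr rfl ?_
          intro j _
          rw [if_pos h5]
        · rw [if_neg (fun h => h5 (h3.1 h).2)]
          refine Finset.sum_eq_zero ?_
          intro j _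
          rw [if_neg h5]
    · rw [if_neg h4, if_neg h4, if_neg (fun h => h4 (h3.1 h).1)]
  rw [h1, h2]
  ring

end Pool.Agent.H24.NVK
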