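import Pool.Agent.H89.NV.TU2

/-! Board nvk_modules, row U_WCC: the weights of products of Hecke operators. -/

set_option autoImplicit false

open MeasureTheory Set Filter NumberField NumberField.InfinitePlace
open Pool.Agent.H65.CM4 Pool.Agent.H61.NVK Pool.Agent.H89.NV
open scoped Real

namespace Pool.Agent.H24.NVK

variable (k : Type) [Field k] [NumberField k] [IsTotallyReal k]

section aux

variable {k}

omit [NumberField k] [IsTotallyReal k] in
open Classical in
/-- the weights without the prime `P` -/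
private theorem Nw_split (f : Ideal (𝓞 k)) (m₁ S : Finset (PrI k)) (P : PrI k) (hP : P ∉ S)
    (e A : Ideal (𝓞 k)) (b c : 𝓞 k) :
    Nw f m₁ S e A b c = (if P ∈ m₁ then N1 f P.1 e A b c else 1) *
      ∏ Q ∈ (m₁ ∪ S).erase P,
        if Q ∈ m₁ ∧ Q ∈ S then N2 f Q.1 e A b c else N1 f Q.1 e A b c := by
  unfold Nw
  by_cases hm : P ∈ m₁
  · have hmem : P ∈ m₁ ∪ S := Finset.mem_union_left _ hm
    rw [← Finset.mul_prod_erase _ _ hmem, if_pos hm, if_neg (fun h => hP h.2)]
  · have hmem : P ∉ m₁ ∪ S := by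
      intro h
      rcases Finset.mem_union.1 h with h | h
      · exact hm h
      · exact hP h
    rw [if_neg hm, one_mul, Finset.erase_eq_of_notMem hmem]

omit [NumberField k] [IsTotallyReal k] in
open Classical in
/-- the weights with the prime `P` -/
private theorem Nw_insert (f : Ideal (𝓞 k)) (m₁ S : Finset (PrI k)) (P : PrI k) (hP : P ∉ S)
    (e A : Ideal (𝓞 k)) (b c : 𝓞 k) :
    Nw f m₁ (insert P S) e A b c =
      (if P ∈ m₁ then N2 f P.1 e A b c else N1 f P.1 e A b c) *
      ∏ Q ∈ (m₁ ∪ S).erase P,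
        if Q ∈ m₁ ∧ Q ∈ S then N2 f Q.1 e A b c else N1 f Q.1 e A b c := by
  unfold Nw
  have hmem : P ∈ m₁ ∪ insert P S := Finset.mem_union_right _ (Finset.mem_insert_self _ _)
  rw [← Finset.mul_prod_erase _ _ hmem]
  have hset : (m₁ ∪ insert P S).erase P = (m₁ ∪ S).erase P := by
    ext Q
    simp only [Finset.mem_erase, Finset.mem_union, Finset.mem_insert]
    constructor
    · rintro ⟨h1, h2⟩
      refine ⟨h1, ?_⟩
      rcases h2 with h2 | h2 | h2
      · exact Or.inl h2
      · exact absurd h2 h1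
      · exact Or.inr h2
    · rintro ⟨h1, h2⟩
      refine ⟨h1, ?_⟩
      rcases h2 with h2 | h2
      · exact Or.inl h2
      · exact Or.inr (Or.inr h2)
  rw [hset]
  have h1 : (if P ∈ m₁ ∧ P ∈ insert P S then N2 f P.1 e A b c else N1 f P.1 e A b c) =
      (if P ∈ m₁ then N2 f P.1 e A b c else N1 f P.1 e A b c) := by
    by_cases hm : P ∈ m₁
    · rw [if_pos ⟨hm, Finset.mem_insert_self _ _⟩, if_pos hm]
    · rw [if_neg (fun h => hm h.1), if_neg hm]
  rw [h1]
  congr 1
  refine Finset.prod_congr rfl ?_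
  intro Q hQ
  have hne : Q ≠ P := (Finset.mem_erase.1 hQ).1
  by_cases h2 : Q ∈ m₁ ∧ Q ∈ S
  · rw [if_pos h2, if_pos ⟨h2.1, Finset.mem_insert_of_mem h2.2⟩]
  · rw [if_neg h2, if_neg]
    rintro ⟨h3, h4⟩
    rcases Finset.mem_insert.1 h4 with h5 | h5
    · exact hne h5
    · exact h2 ⟨h3, h5⟩

end aux

theorem pf_WC (hIDL : T_IDL k) (hTRV : T_TRV k) (hWC1 : T_WC1 k) (hWC2 : T_WC2 k) : T_WC k := by
  classical
  intro f D m₁ l h hf
  obtain ⟨-, hdv, -, hmul, -, hnp, -⟩ := hIDL
  induction l using List.reverseRecOn with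
  | nil =>
    intro _ e A b he hF
    simp only [List.foldl_nil, List.toFinset_nil]
    rw [if_neg he]
    have h1 : nS (∅ : Finset (PrI k)) = 1 := by simp [nS]
    rw [h1, div_one]
    congr 2
    unfold Nw
    rw [Finset.union_empty]
    refine Finset.prod_congr rfl ?_
    intro Q _
    rw [if_neg (fun h => absurd h.2 (Finset.notMem_empty _))]
  | append_singleton l P ih =>
    intro hnd e A b he hF
    have hnd1 : l.Nodup := (List.nodup_append.1 hnd).1
    have hPl : P ∉ l := by
      intro hP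
      exact (List.nodup_append.1 hnd).2.2 P hP P (List.mem_singleton.2 rfl) rfl
    have ih' := ih hnd1
    set S : Finset (PrI k) := l.toFinset with hS
    have hPS : P ∉ S := by
      rw [hS, List.mem_toFinset]; exact hPl
    have hSi : (l ++ [P]).toFinset = insert P S := by
      rw [List.toFinset_append, hS]
      ext Q
      simp only [Finset.mem_union, List.mem_toFinset, List.mem_singleton, Finset.mem_insert]
      tauto
    have hnS : nS (insert P S) = np P * nS S := by
      simp only [nS]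
      rw [Finset.prod_insert hPS]
    rw [List.foldl_append, hSi, hnS, List.foldl_cons, List.foldl_nil]
    set ω : WW k := l.foldl (fun ω P => Wp f P.1 ω) (fun e A b c => if e = ⊥ then 0 else
        h (nm (e ^ 2 * A)) * ((∏ P ∈ m₁, N1 f P.1 e A b c : ℕ) : ℝ)) with hω
    obtain ⟨h4, hmem, hFtop, htr, hrt, hdvF⟩ := hTRV f A D b hf hF
    set c : 𝓞 k := q4 (b ^ 2 + D) with hc
    have hPne : P.1 ≠ ⊥ := P.2.2
    have hnpP : nm P.1 = np P := rfl
    have hnp0 : np P ≠ 0 := by have := hnp P; linarith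
    -- the common factor
    set R : ℕ := ∏ Q ∈ (m₁ ∪ S).erase P,
        (if Q ∈ m₁ ∧ Q ∈ S then N2 f Q.1 e A b c else N1 f Q.1 e A b c) with hR
    set H : ℝ := h (nm (e ^ 2 * A) / (np P * nS S)) with hH
    -- first term
    have hfirst : (if P.1 ∣ A then ω e (dvi A P.1) b c else 0) =
        H * ((if P.1 ∣ A then (if P ∈ m₁ then N1 f P.1 e (dvi A P.1) b c else 1) else 0 : ℕ) : ℝ)
          * R := by
      by_cases hPA : P.1 ∣ A
      · rw [if_pos hPA, if_pos hPA]
        have hF' : Fm f D (dvi A P.1) b := hdvF P.1 hPA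
        have e1 : ω e (dvi A P.1) b c = _ := ih' e (dvi A P.1) b he hF'
        rw [e1, Nw_split f m₁ S P hPS]
        have hnm : nm (e ^ 2 * dvi A P.1) / nS S = nm (e ^ 2 * A) / (np P * nS S) := by
          have h5 : nm A = nm P.1 * nm (dvi A P.1) := (hdv A P.1 hF.ne hPA).2.2
          rw [hmul, hmul (e ^ 2) A, h5, hnpP]
          by_cases h0 : nS S = 0
          · rw [h0]; simp
          · field_simp
        rw [hnm]
        have hprod : (∏ Q ∈ (m₁ ∪ S).erase P,
            (if Q ∈ m₁ ∧ Q ∈ S then N2 f Q.1 e (dvi A P.1) b (q4 (b ^ 2 + D))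
              else N1 f Q.1 e (dvi A P.1) b (q4 (b ^ 2 + D)))) = R := by
          refine Finset.prod_congr rfl ?_
          intro Q hQ
          have hne : P ≠ Q := fun h => (Finset.mem_erase.1 hQ).1 h.symm
          have h6 := (hWC1 f D P Q e A b hf hne he hF).1 hPA
          rw [h6.1, h6.2]
        rw [hprod]
        push_cast
        ring
      · rw [if_neg hPA, if_neg hPA]
        simp
    -- second term
    have hsecond : (if P.1 ∣ e then ∑ j ∈ rts f P.1 A b c,
          ω (dvi e P.1) (P.1 * A) (b + 2 * j) (j ^ 2 + b * j + c) else 0) =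
        H * ((if P.1 ∣ e then ∑ j ∈ rts f P.1 A b c,
          (if P ∈ m₁ then N1 f P.1 (dvi e P.1) (P.1 * A) (b + 2 * j) (j ^ 2 + b * j + c) else 1)
            else 0 : ℕ) : ℝ) * R := by
      by_cases hPe : P.1 ∣ e
      · rw [if_pos hPe, if_pos hPe]
        push_cast
        rw [Finset.mul_sum, Finset.sum_mul]
        refine Finset.sum_congr rfl ?_
        intro j hj
        obtain ⟨hF', hq4⟩ := hrt P.1 j hPne hj
        obtain ⟨h7, h8, h9⟩ := hdv e P.1 he hPe
        have e1 : ω (dvi e P.1) (P.1 * A) (b + 2 * j) (q4 ((b + 2 * j) ^ 2 + D)) = _ :=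
          ih' (dvi e P.1) (P.1 * A) (b + 2 * j) h8 hF'
        rw [hq4] at e1
        rw [e1, Nw_split f m₁ S P hPS]
        have hnm : nm (dvi e P.1 ^ 2 * (P.1 * A)) / nS S = nm (e ^ 2 * A) / (np P * nS S) := by
          have h10 : e ^ 2 * A = P.1 * (dvi e P.1 ^ 2 * (P.1 * A)) := by
            calc e ^ 2 * A = (P.1 * dvi e P.1) ^ 2 * A := by rw [h7]
              _ = P.1 * (dvi e P.1 ^ 2 * (P.1 * A)) := by ring
          rw [h10, hmul P.1, hnpP]
          by_cases h0 : nS S = 0
          · rw [h0]; simp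
          · field_simp
        rw [hnm]
        have hprod : (∏ Q ∈ (m₁ ∪ S).erase P,
            (if Q ∈ m₁ ∧ Q ∈ S then
                N2 f Q.1 (dvi e P.1) (P.1 * A) (b + 2 * j) (j ^ 2 + b * j + c)
              else N1 f Q.1 (dvi e P.1) (P.1 * A) (b + 2 * j) (j ^ 2 + b * j + c))) = R := by
          refine Finset.prod_congr rfl ?_
          intro Q hQ
          have hne : P ≠ Q := fun h => (Finset.mem_erase.1 hQ).1 h.symm
          have h6 := (hWC1 f D P Q e A b hf hne he hF).2 j hj hPe
          rw [h6.1, h6.2]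
        rw [hprod]
        push_cast
        ring
      · rw [if_neg hPe, if_neg hPe]
        simp
    have hlhs : Wp f P.1 ω e A b c =
        (if P.1 ∣ A then ω e (dvi A P.1) b c else 0) +
        (if P.1 ∣ e then ∑ j ∈ rts f P.1 A b c,
          ω (dvi e P.1) (P.1 * A) (b + 2 * j) (j ^ 2 + b * j + c) else 0) := rfl
    rw [hlhs, hfirst, hsecond, Nw_insert f m₁ S P hPS]
    -- the factor at `P`
    have hkey : (if P.1 ∣ A then (if P ∈ m₁ then N1 f P.1 e (dvi A P.1) b c else 1) else 0) +
        (if P.1 ∣ e then ∑ j ∈ rts f P.1 A b c,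
          (if P ∈ m₁ then N1 f P.1 (dvi e P.1) (P.1 * A) (b + 2 * j) (j ^ 2 + b * j + c) else 1)
            else 0) = (if P ∈ m₁ then N2 f P.1 e A b c else N1 f P.1 e A b c) := by
      by_cases hm : P ∈ m₁
      · simp only [if_pos hm]
        exact hWC2 f D P e A b hf he hF
      · simp only [if_neg hm]
        rw [Finset.sum_const, smul_eq_mul, mul_one]
        rfl
    rw [← hkey, Nat.cast_mul, Nat.cast_add]
    ring

end Pool.Agent.H24.NVK
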